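import Pool.Agent.Helper17_Tukey.Step

/-!
# The closure argument
-/

set_option autoImplicit false

open Finset Filter Topology Cardinal

namespace Pool.Agent.Helper17_Tukey

open Classical in
/-- a countable set met by all violating tuples, if there is one -/
noncomputable def RR (κ : Key) : Set (Set ℕ) :=
  if h : ∃ R : Set (Set ℕ), R.Countable ∧ ∀ v, Viol κ v → ∃ c, v c ∈ R then h.choose else ∅

theorem RR_countable (κ : Key) : (RR κ).Countable := by
  unfold RR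
  split_ifs with h
  · exact h.choose_spec.1
  · exact Set.countable_empty

theorem RR_hit {κ : Key} (h : ∃ R : Set (Set ℕ), R.Countable ∧ ∀ v, Viol κ v → ∃ c, v c ∈ R) :
    ∀ v, Viol κ v → ∃ c, v c ∈ RR κ := by
  unfold RR
  rw [dif_pos h]
  exact h.choose_spec.2

/-- the keys over `S` -/
def Keys (ℬ : Set (Set D)) (act : Set Triple) (S : Set (Set ℕ)) : Set Key :=
  {κ | (∀ B ∈ κ.1, B ∈ ℬ) ∧ (∀ z ∈ κ.2.1, z.1 ∈ act ∧ z.2 ∈ S) ∧ ∀ c, κ.2.2.1.2 c ∈ act}

theorem mk_list_le {α : Type} {c : Cardinal.{0}} (hc : ℵ₀ ≤ c) (h : Cardinal.mk α ≤ c) : Cardinal.mk (List α) ≤ c :=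
  (Cardinal.mk_list_le_max α).trans (max_le hc h)

theorem mk_prod_le {α β : Type} {c : Cardinal.{0}} (hc : ℵ₀ ≤ c) (h : Cardinal.mk α ≤ c) (h' : Cardinal.mk β ≤ c) :
    Cardinal.mk (α × β) ≤ c := by
  rw [Cardinal.mk_prod, Cardinal.lift_id, Cardinal.lift_id]
  exact (mul_le_mul' h h').trans (Cardinal.mul_eq_self hc).le

theorem mk_keys_le {ℬ : Set (Set D)} {act : Set Triple} {S : Set (Set ℕ)} {c : Cardinal.{0}}
    (hc : ℵ₀ ≤ c) (h1 : Cardinal.mk ℬ ≤ c) (h2 : Cardinal.mk act ≤ c) (h3 : Cardinal.mk S ≤ c) : Cardinal.mk (Keys ℬ act S) ≤ c := by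
  let F : List ℬ × List (act × S) × List act × ℕ → Key := fun x =>
    (x.1.map Subtype.val, x.2.1.map fun z => (z.1.1, z.2.1),
      List.equivSigmaTuple (x.2.2.1.map Subtype.val), x.2.2.2)
  have h4 : Keys ℬ act S ⊆ Set.range F := by
    rintro ⟨b, w, L, k⟩ ⟨g1, g2, g3⟩
    simp only at g1 g2 g3
    obtain ⟨b', rfl⟩ : ∃ b' : List ℬ, b'.map Subtype.val = b :=
      CanLift.prf (self := List.canLift (Subtype.val : ℬ → Set D) (fun B => B ∈ ℬ)) b g1
    have g2' : ∃ w' : List (act × S), (w'.map fun z => ((z.1.1, z.2.1) : Triple × Set ℕ)) = w := by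
      clear g1 g3
      induction w with
      | nil => exact ⟨[], rfl⟩
      | cons z w ih =>
        obtain ⟨w', hw'⟩ := ih fun z' hz' => g2 z' (List.mem_cons_of_mem _ hz')
        obtain ⟨g4, g5⟩ := g2 z (List.mem_cons_self)
        exact ⟨(⟨z.1, g4⟩, ⟨z.2, g5⟩) :: w', by simp [hw']⟩
    obtain ⟨w', rfl⟩ := g2'
    have g3' : ∀ T ∈ List.equivSigmaTuple.symm L, T ∈ act := by
      intro T hT
      simp only [List.equivSigmaTuple, Equiv.coe_fn_symm_mk, List.mem_ofFn] at hT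
      obtain ⟨c, rfl⟩ := hT
      exact g3 c
    obtain ⟨L', hL'⟩ : ∃ L' : List act, L'.map Subtype.val = List.equivSigmaTuple.symm L :=
      CanLift.prf (self := List.canLift (Subtype.val : act → Triple) (fun B => B ∈ act)) _ g3'
    refine ⟨(b', w', L', k), ?_⟩
    simp only [F, hL', Equiv.apply_symm_apply]
  have h5 : Cardinal.mk (List ℬ × List (act × S) × List act × ℕ) ≤ c :=
    mk_prod_le hc (mk_list_le hc h1) (mk_prod_le hc (mk_list_le hc (mk_prod_le hc h2 h3))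
      (mk_prod_le hc (mk_list_le hc h2) (by simpa using hc)))
  exact (Cardinal.mk_le_mk_of_subset h4).trans (Cardinal.mk_range_le.trans h5)

/-- one step of the closure -/
def cl1 (ℬ : Set (Set D)) (act : Set Triple) (S : Set (Set ℕ)) : Set (Set ℕ) :=
  S ∪ ⋃ κ ∈ Keys ℬ act S, RR κ

theorem mk_cl1_le {ℬ : Set (Set D)} {act : Set Triple} {S : Set (Set ℕ)} {c : Cardinal.{0}}
    (hc : ℵ₀ ≤ c) (h1 : Cardinal.mk ℬ ≤ c) (h2 : Cardinal.mk act ≤ c) (h3 : Cardinal.mk S ≤ c) : Cardinal.mk (cl1 ℬ act S) ≤ c := by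
  refine (Cardinal.mk_union_le _ _).trans ?_
  refine (add_le_add h3 ?_).trans (Cardinal.add_eq_self hc).le
  refine (Cardinal.mk_biUnion_le _ _).trans ?_
  refine (mul_le_mul' (mk_keys_le hc h1 h2 h3) (ciSup_le' fun κ => ?_)).trans
    (Cardinal.mul_eq_self hc).le
  exact ((Cardinal.le_aleph0_iff_set_countable).2 (RR_countable κ.1)).trans hc

/-- the closure -/
def cl (ℬ : Set (Set D)) (act : Set Triple) (S : Set (Set ℕ)) : Set (Set ℕ) :=
  ⋃ i : ℕ, (cl1 ℬ act)^[i] S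

theorem mk_cl_le {ℬ : Set (Set D)} {act : Set Triple} {S : Set (Set ℕ)} {c : Cardinal.{0}}
    (hc : ℵ₀ ≤ c) (h1 : Cardinal.mk ℬ ≤ c) (h2 : Cardinal.mk act ≤ c) (h3 : Cardinal.mk S ≤ c) : Cardinal.mk (cl ℬ act S) ≤ c := by
  refine (Cardinal.mk_iUnion_le _).trans ?_
  refine (mul_le_mul' (show #ℕ ≤ c by simpa using hc) (ciSup_le' fun i => ?_)).trans
    (Cardinal.mul_eq_self hc).le
  induction i with
  | zero => exact h3
  | succ i ih =>
    rw [Function.iterate_succ_apply']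
    exact mk_cl1_le hc h1 h2 ih

theorem iter_mono (ℬ : Set (Set D)) (act : Set Triple) (S : Set (Set ℕ)) :
    Monotone fun i : ℕ => (cl1 ℬ act)^[i] S := by
  refine monotone_nat_of_le_succ fun i => ?_
  rw [Function.iterate_succ_apply']
  exact Set.subset_union_left

theorem subset_cl (ℬ : Set (Set D)) (act : Set Triple) (S : Set (Set ℕ)) : S ⊆ cl ℬ act S :=
  Set.subset_iUnion (fun i : ℕ => (cl1 ℬ act)^[i] S) 0

theorem RR_subset_cl {ℬ : Set (Set D)} {act : Set Triple} {S : Set (Set ℕ)} {κ : Key}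
    (h1 : ∀ B ∈ κ.1, B ∈ ℬ) (h2 : ∀ z ∈ κ.2.1, z.1 ∈ act ∧ z.2 ∈ cl ℬ act S)
    (h3 : ∀ c, κ.2.2.1.2 c ∈ act) : RR κ ⊆ cl ℬ act S := by
  -- all reals of the key appear at some stage
  have h4 : ∀ w : List (Triple × Set ℕ), (∀ z ∈ w, z.1 ∈ act ∧ z.2 ∈ cl ℬ act S) →
      ∃ i, ∀ z ∈ w, z.1 ∈ act ∧ z.2 ∈ (cl1 ℬ act)^[i] S := by
    intro w
    induction w with
    | nil => exact fun _ => ⟨0, by simp⟩
    | cons z w ih =>
      intro h
      obtain ⟨i, hi⟩ := ih fun z' hz' => h z' (List.mem_cons_of_mem _ hz')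
      obtain ⟨hz1, hz2⟩ := h z List.mem_cons_self
      obtain ⟨j, hj⟩ := Set.mem_iUnion.1 hz2
      refine ⟨max i j, fun z' hz' => ?_⟩
      rcases List.mem_cons.1 hz' with rfl | hz'
      · exact ⟨hz1, iter_mono ℬ act S (le_max_right i j) hj⟩
      · exact ⟨(hi z' hz').1, iter_mono ℬ act S (le_max_left i j) (hi z' hz').2⟩
  obtain ⟨i, hi⟩ := h4 κ.2.1 h2
  refine Set.Subset.trans ?_ (Set.subset_iUnion (fun i : ℕ => (cl1 ℬ act)^[i] S) (i + 1))
  rw [Function.iterate_succ_apply']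
  exact Set.Subset.trans (Set.subset_biUnion_of_mem (u := RR) (show κ ∈ Keys ℬ act _ from
    ⟨h1, hi, h3⟩)) Set.subset_union_right

/-- The extension step. -/
theorem extend {ℬ : Set (Set D)} {𝒵 : Set (Triple × Set ℕ)} (hne : (FF ℬ 𝒵).NeBot)
    {c : Cardinal.{0}} (hc : ℵ₀ ≤ c) {act : Set Triple} (h1 : Cardinal.mk ℬ ≤ c) (h2 : Cardinal.mk act ≤ c)
    (hact : ∀ z ∈ 𝒵, z.1 ∈ act) (hdom : ∀ T ∈ act, Dom T (FF ℬ 𝒵)) {T0 : Triple}
    (hT0 : Dom T0 (FF ℬ 𝒵)) :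
    ∃ bad : Set (Set ℕ), Cardinal.mk bad ≤ c ∧ (FF ℬ (𝒵 ∪ {z | z.1 = T0 ∧ z.2 ∉ bad})).NeBot := by
  classical
  have h2' : Cardinal.mk (insert T0 act : Set Triple) ≤ c := by
    refine (Cardinal.mk_insert_le).trans ?_
    exact (add_le_add h2 (Cardinal.one_le_aleph0.trans hc)).trans (Cardinal.add_eq_self hc).le
  set N := cl ℬ (insert T0 act) ∅ with hN
  refine ⟨N, mk_cl_le hc h1 h2' (by simp), ⟨fun hbot => ?_⟩⟩
  have h3 : (∅ : Set D) ∈ FF ℬ (𝒵 ∪ {z | z.1 = T0 ∧ z.2 ∉ N}) := by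
    rw [hbot]; exact Filter.mem_bot
  obtain ⟨φ, hφ, ε, hε, b, hb, w, hw, hcon⟩ := mem_FF.1 h3
  obtain ⟨k, hk⟩ := exists_nat_one_div_lt hε
  -- split the list
  set w1 := w.filter (fun z => z.2 ∈ N) with hw1
  set w2 := w.filter (fun z => z.2 ∉ N) with hw2
  have hw1' : ∀ z ∈ w1, z ∈ 𝒵 ∧ z.2 ∈ N := by
    intro z hz
    rw [hw1, List.mem_filter] at hz
    have hzN : z.2 ∈ N := by simpa using hz.2
    rcases hw z hz.1 with h | h
    · exact ⟨h, hzN⟩
    · exact absurd hzN h.2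
  have hw2' : ∀ z ∈ w2, z.1 ∈ insert T0 act ∧ z.2 ∉ N := by
    intro z hz
    rw [hw2, List.mem_filter] at hz
    have hzN : z.2 ∉ N := by simpa using hz.2
    rcases hw z hz.1 with h | h
    · exact ⟨Set.mem_insert_of_mem _ (hact z h), hzN⟩
    · exact ⟨by rw [h.1]; exact Set.mem_insert _ _, hzN⟩
  let κ : Key := (b, w1, ⟨w2.length, fun i => (w2.get i).1⟩, k)
  have hκ : ∃ R : Set (Set ℕ), R.Countable ∧ ∀ v, Viol κ v → ∃ c, v c ∈ R := by
    refine countable_hit hne κ hb (fun z hz => (hw1' z hz).1) ?_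
    intro i
    have h4 : (w2.get i).1 ∈ insert T0 act := (hw2' _ (List.get_mem w2 i)).1
    rcases h4 with h4 | h4
    · change Dom (w2.get i).1 _
      rw [h4]
      exact hT0
    · exact hdom _ h4
  have hviol : Viol κ (fun i => (w2.get i).2) := by
    refine ⟨φ, hφ, fun n g1 g2 g3 => ?_⟩
    by_contra hno
    push Not at hno
    refine hcon n (g3.trans hk.le) g1 ?_
    intro z hz
    by_cases hzN : z.2 ∈ N
    · have hz1 : z ∈ w1 := by rw [hw1, List.mem_filter]; exact ⟨hz, by simpa using hzN⟩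
      exact g2 z hz1
    · have hz2 : z ∈ w2 := by rw [hw2, List.mem_filter]; exact ⟨hz, by simpa using hzN⟩
      obtain ⟨i, hi⟩ := List.get_of_mem hz2
      have := hno i
      change ¬ (w2.get i).1.Guess n (w2.get i).2 at this
      rwa [hi] at this
  obtain ⟨i, hi⟩ := RR_hit hκ _ hviol
  have h5 : RR κ ⊆ N := by
    refine RR_subset_cl hb ?_ ?_
    · intro z hz
      exact ⟨Set.mem_insert_of_mem _ (hact z (hw1' z hz).1), (hw1' z hz).2⟩
    · intro i
      exact (hw2' _ (List.get_mem w2 i)).1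
  exact (hw2' _ (List.get_mem w2 i)).2 (h5 hi)

end Pool.Agent.Helper17_Tukey
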