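import Mathlib

/-!
# Tukey-top ultrafilters and the principle diamond-minus

Definitions for problem MP_a0a263_lc. All ultrafilters are on `ℕ`; the number `n` is identified
with the set of its predecessors, `Set.Iio n`.
-/

set_option autoImplicit false

namespace Pool.Agent.Helper17_Tukey

/-- The ultrafilter `U` is Tukey-top: there are continuum many sets `A i ∈ U` such that no
countably infinite subfamily has its intersection in `U`. -/
def TukeyTop (U : Ultrafilter ℕ) : Prop :=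
  ∃ ι : Type, Cardinal.mk ι = Cardinal.continuum ∧ ∃ A : ι → Set ℕ, (∀ i, A i ∈ U) ∧
    ∀ I : Set ι, I.Countable → I.Infinite → (⋂ i ∈ I, A i) ∉ U

/-- The principle diamond-minus of `U`: there are functions `f, π : ℕ → ℕ` and families `𝒜 n` of
subsets of `f n = {0, …, f n - 1}` with `|𝒜 n| ≤ π n`, such that

1. for every `g : ℕ → ℕ` the set `{n | g (π n) < f n}` belongs to `U`, and
2. the set of all `X ⊆ ℕ` with `{n | X ∩ f n ∈ 𝒜 n} ∈ U` has the cardinality of the continuum. -/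
def DiamondMinus (U : Ultrafilter ℕ) : Prop :=
  ∃ (f π : ℕ → ℕ) (𝒜 : ℕ → Set (Set ℕ)),
    (∀ n, ∀ S ∈ 𝒜 n, S ⊆ Set.Iio (f n)) ∧ (∀ n, (𝒜 n).encard ≤ π n) ∧
    (∀ g : ℕ → ℕ, {n | g (π n) < f n} ∈ U) ∧
    Cardinal.mk {X : Set ℕ // {n | X ∩ Set.Iio (f n) ∈ 𝒜 n} ∈ U} = Cardinal.continuum

end Pool.Agent.Helper17_Tukey
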