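import Mathlib

/-!
# Good functions

`D` is the set of pairs `(m, G)`, where `G` is a finite set of finite sets. The trace of a set `X` at
level `m` is `X ∩ m`. A function `φ : D → [0,1]` is good if its expectation over a random `G`
(every subset of `m` is put into `G` with probability `δ`) is at most `2δ`, for all large `m`.
-/

set_option autoImplicit false

open Finset

namespace Pool.Agent.Helper17_Tukey

open Classical in
/-- The trace `X ∩ m`. -/
noncomputable def tr (m : ℕ) (X : Set ℕ) : Finset ℕ := (Finset.range m).filter (fun i => i ∈ X)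

theorem mem_tr {m : ℕ} {X : Set ℕ} {i : ℕ} : i ∈ tr m X ↔ i < m ∧ i ∈ X := by
  unfold tr; simp

theorem tr_subset (m : ℕ) (X : Set ℕ) : tr m X ⊆ range m := by
  intro i hi
  exact Finset.mem_range.2 (mem_tr.1 hi).1

theorem tr_eq_of_le {l m : ℕ} (h : l ≤ m) {X Y : Set ℕ} (he : tr m X = tr m Y) :
    tr l X = tr l Y := by
  ext i
  have h1 : i ∈ tr m X ↔ i ∈ tr m Y := by rw [he]
  rw [mem_tr, mem_tr] at h1 ⊢
  constructor
  · rintro ⟨h2, h3⟩
    exact ⟨h2, (h1.1 ⟨by omega, h3⟩).2⟩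
  · rintro ⟨h2, h3⟩
    exact ⟨h2, (h1.2 ⟨by omega, h3⟩).2⟩

theorem eq_of_tr {X Y : Set ℕ} (h : ∀ l, tr l X = tr l Y) : X = Y := by
  ext i
  have h1 : i ∈ tr (i + 1) X ↔ i ∈ tr (i + 1) Y := by rw [h]
  rw [mem_tr, mem_tr] at h1
  constructor
  · intro h3
    exact (h1.1 ⟨by omega, h3⟩).2
  · intro h3
    exact (h1.2 ⟨by omega, h3⟩).2

/-- The countable index set. -/
abbrev D : Type := ℕ × Finset (Finset ℕ)

/-- All subsets of `m`. -/
abbrev PP (m : ℕ) : Finset (Finset ℕ) := (range m).powerset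

/-- The probability of `G`. -/
noncomputable def wt (δ : ℝ) (m : ℕ) (G : Finset (Finset ℕ)) : ℝ :=
  δ ^ (#G) * (1 - δ) ^ (#(PP m) - #G)

/-- The expectation of `φ` at level `m`. -/
noncomputable def EE (δ : ℝ) (m : ℕ) (φ : D → ℝ) : ℝ :=
  ∑ G ∈ (PP m).powerset, wt δ m G * φ (m, G)

theorem wt_nonneg {δ : ℝ} (h0 : 0 ≤ δ) (h1 : δ ≤ 1) (m : ℕ) (G : Finset (Finset ℕ)) :
    0 ≤ wt δ m G := by
  unfold wt
  have : 0 ≤ 1 - δ := by linarith
  positivity

theorem sum_wt (δ : ℝ) (m : ℕ) : ∑ G ∈ (PP m).powerset, wt δ m G = 1 := by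
  unfold wt
  rw [Finset.sum_pow_mul_eq_add_pow]
  simp

theorem EE_mono {δ : ℝ} (h0 : 0 ≤ δ) (h1 : δ ≤ 1) (m : ℕ) {φ ψ : D → ℝ} (h : ∀ n, φ n ≤ ψ n) :
    EE δ m φ ≤ EE δ m ψ := by
  unfold EE
  exact Finset.sum_le_sum fun G _ => mul_le_mul_of_nonneg_left (h _) (wt_nonneg h0 h1 m G)

theorem EE_const (δ : ℝ) (m : ℕ) (c : ℝ) : EE δ m (fun _ => c) = c := by
  unfold EE
  rw [← Finset.sum_mul, sum_wt, one_mul]

theorem EE_one_sub (δ : ℝ) (m : ℕ) (ψ : D → ℝ) :
    EE δ m (fun n => 1 - ψ n) = 1 - EE δ m ψ := by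
  unfold EE
  simp only [mul_sub, mul_one, Finset.sum_sub_distrib, sum_wt]

open Classical in
/-- The probability that `G` misses the given finite set `S` of strings is `(1-δ)^|S|`. -/
theorem EE_disjoint (δ : ℝ) (m : ℕ) {S : Finset (Finset ℕ)} (hS : S ⊆ PP m) :
    EE δ m (fun n => if Disjoint n.2 S then 1 else 0) = (1 - δ) ^ #S := by
  unfold EE
  have h1 : ∑ G ∈ (PP m).powerset, wt δ m G * (if Disjoint G S then (1 : ℝ) else 0)
      = ∑ G ∈ (PP m \ S).powerset, wt δ m G := by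
    simp only [mul_ite, mul_one, mul_zero]
    rw [← Finset.sum_filter]
    congr 1
    ext G
    simp only [mem_filter, Finset.mem_powerset, subset_sdiff]
  rw [h1]
  have h2 : #(PP m) = #(PP m \ S) + #S := by
    rw [Finset.card_sdiff_of_subset hS]
    have := Finset.card_le_card hS
    omega
  have h3 : ∀ G ∈ (PP m \ S).powerset, wt δ m G =
      (δ ^ #G * (1 - δ) ^ (#(PP m \ S) - #G)) * (1 - δ) ^ #S := by
    intro G hG
    have h4 := Finset.card_le_card (Finset.mem_powerset.1 hG)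
    unfold wt
    rw [mul_assoc, ← pow_add]
    congr 2
    omega
  rw [Finset.sum_congr rfl h3, ← Finset.sum_mul, Finset.sum_pow_mul_eq_add_pow]
  simp

/-- The densities. -/
noncomputable def dl (i : ℕ) : ℝ := (1 / 2) ^ (i + 1)

theorem dl_pos (i : ℕ) : 0 < dl i := by unfold dl; positivity
theorem dl_le_half (i : ℕ) : dl i ≤ 1 / 2 := by
  unfold dl
  rw [pow_succ]
  have : (1 / 2 : ℝ) ^ i ≤ 1 := pow_le_one₀ (by norm_num) (by norm_num)
  linarith
theorem dl_le_one (i : ℕ) : dl i ≤ 1 := by linarith [dl_le_half i]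

/-- `φ` is good with rate `r`. -/
def GoodR (r : ℕ → ℕ) (φ : D → ℝ) : Prop :=
  (∀ n, 0 ≤ φ n ∧ φ n ≤ 1) ∧ ∀ i m, r i ≤ m → EE (dl i) m φ ≤ 2 * dl i

/-- `φ` is good. -/
def Good (φ : D → ℝ) : Prop := ∃ r, GoodR r φ

theorem Good.nonneg {φ : D → ℝ} (h : Good φ) (n : D) : 0 ≤ φ n := by
  obtain ⟨r, h⟩ := h
  exact (h.1 n).1

theorem good_zero : Good (fun _ => 0) := by
  refine ⟨fun _ => 0, fun n => by simp, fun i m _ => ?_⟩
  rw [EE_const]
  linarith [dl_pos i]

theorem Good.avg {φ ψ : D → ℝ} (h : Good φ) (h' : Good ψ) : Good (fun n => (φ n + ψ n) / 2) := by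
  obtain ⟨r, h1, h2⟩ := h
  obtain ⟨r', h1', h2'⟩ := h'
  refine ⟨fun i => max (r i) (r' i), fun n => ?_, fun i m him => ?_⟩
  · have a := h1 n
    have b := h1' n
    constructor <;> linarith [a.1, a.2, b.1, b.2]
  · have a := h2 i m (le_trans (le_max_left _ _) him)
    have b := h2' i m (le_trans (le_max_right _ _) him)
    have c : EE (dl i) m (fun n => (φ n + ψ n) / 2) = (EE (dl i) m φ + EE (dl i) m ψ) / 2 := by
      unfold EE
      rw [← Finset.sum_add_distrib, Finset.sum_div]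
      refine Finset.sum_congr rfl fun G _ => ?_
      ring
    rw [c]
    linarith

theorem Good.exists_le {φ : D → ℝ} (h : Good φ) {ε : ℝ} (hε : 0 < ε) : ∃ n, φ n ≤ ε := by
  obtain ⟨r, h1, h2⟩ := h
  by_contra hcon
  push Not at hcon
  obtain ⟨i, hi⟩ : ∃ i : ℕ, (1 / 2 : ℝ) ^ i < ε := exists_pow_lt_of_lt_one hε (by norm_num)
  have h3 := h2 i (r i) le_rfl
  have h4 : EE (dl i) (r i) (fun _ => ε) ≤ EE (dl i) (r i) φ :=
    EE_mono (dl_pos i).le (dl_le_one i) _ fun n => (hcon n).le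
  rw [EE_const] at h4
  have h5 : 2 * dl i = (1 / 2 : ℝ) ^ i := by
    unfold dl
    rw [pow_succ]
    ring
  linarith

open Classical in
/-- The function of the set `A_X`. -/
theorem good_point (X : Set ℕ) : Good (fun n : D => if tr n.1 X ∈ n.2 then 1 else 0) := by
  refine ⟨fun _ => 0, fun n => ?_, fun i m _ => ?_⟩
  · dsimp only
    split_ifs <;> simp
  · have h1 : EE (dl i) m (fun n : D => if tr n.1 X ∈ n.2 then 1 else 0) =
        1 - EE (dl i) m (fun n => if Disjoint n.2 {tr m X} then 1 else 0) := by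
      rw [← EE_one_sub]
      unfold EE
      refine Finset.sum_congr rfl fun G _ => ?_
      simp only [Finset.disjoint_singleton_right]
      split_ifs <;> simp
    rw [h1, EE_disjoint]
    · simp
      linarith [dl_pos i]
    · simp [tr_subset]

open Classical in
/-- The function of the complement of the intersection of the `A_X`, `X ∈ I`, for infinite `I`. -/
theorem good_inf {I : Set (Set ℕ)} (hI : I.Infinite) :
    Good (fun n : D => if ∀ X ∈ I, tr n.1 X ∉ n.2 then 1 else 0) := by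
  have key : ∀ k : ℕ, ∃ r : ℕ, ∀ m, r ≤ m → ∃ S : Finset (Finset ℕ), S ⊆ PP m ∧ k ≤ #S ∧
      ∀ s ∈ S, ∃ X ∈ I, tr m X = s := by
    intro k
    obtain ⟨F, hF, hk⟩ := hI.exists_subset_card_eq k
    -- a level at which all elements of `F` are distinct
    have h1 : ∃ r : ℕ, ∀ X ∈ F, ∀ Y ∈ F, X ≠ Y → tr r X ≠ tr r Y := by
      have h2 : ∀ X Y : Set ℕ, ∃ l, X ≠ Y → tr l X ≠ tr l Y := by
        intro X Y
        by_cases h : X = Y
        · exact ⟨0, fun h' => absurd h h'⟩
        · by_contra hcon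
          push Not at hcon
          exact h (eq_of_tr fun l => (hcon l).2)
      choose L hL using h2
      refine ⟨F.sup fun X => F.sup fun Y => L X Y, fun X hX Y hY hXY he => ?_⟩
      refine hL X Y hXY (tr_eq_of_le ?_ he)
      exact le_trans (Finset.le_sup (f := fun Y => L X Y) hY)
        (Finset.le_sup (f := fun X => F.sup fun Y => L X Y) hX)
    obtain ⟨r, hr⟩ := h1
    refine ⟨r, fun m hm => ⟨F.image (tr m), ?_, ?_, ?_⟩⟩
    · intro s hs
      obtain ⟨X, _, rfl⟩ := Finset.mem_image.1 hs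
      exact Finset.mem_powerset.2 (tr_subset m X)
    · rw [Finset.card_image_of_injOn, hk]
      intro X hX Y hY he
      by_contra hne
      exact hr X hX Y hY hne (tr_eq_of_le hm he)
    · intro s hs
      obtain ⟨X, hX, rfl⟩ := Finset.mem_image.1 hs
      exact ⟨X, hF hX, rfl⟩
  have h2 : ∀ i : ℕ, ∃ k : ℕ, (1 - dl i) ^ k ≤ 2 * dl i := by
    intro i
    obtain ⟨k, hk⟩ := exists_pow_lt_of_lt_one (show (0 : ℝ) < 2 * dl i by linarith [dl_pos i])
      (show 1 - dl i < 1 by linarith [dl_pos i])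
    exact ⟨k, hk.le⟩
  choose k hk using h2
  choose r hr using key
  refine ⟨fun i => r (k i), fun n => ?_, fun i m him => ?_⟩
  · dsimp only
    split_ifs <;> simp
  · obtain ⟨S, hS, hkS, hSI⟩ := hr (k i) m him
    have h3 : EE (dl i) m (fun n : D => if ∀ X ∈ I, tr n.1 X ∉ n.2 then 1 else 0) ≤
        EE (dl i) m (fun n => if Disjoint n.2 S then 1 else 0) := by
      unfold EE
      refine Finset.sum_le_sum fun G _ => mul_le_mul_of_nonneg_left ?_
        (wt_nonneg (dl_pos i).le (dl_le_one i) m G)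
      dsimp only
      by_cases h4 : ∀ X ∈ I, tr m X ∉ G
      · rw [if_pos h4, if_pos]
        rw [Finset.disjoint_right]
        intro s hs
        obtain ⟨X, hX, rfl⟩ := hSI s hs
        exact h4 X hX
      · rw [if_neg h4]
        split_ifs <;> simp
    refine h3.trans ?_
    rw [EE_disjoint _ _ hS]
    refine le_trans ?_ (hk i)
    exact pow_le_pow_of_le_one (by linarith [dl_le_one i]) (by linarith [dl_pos i]) hkS

end Pool.Agent.Helper17_Tukey
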