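import Pool.Agent.Helper17_Tukey.Scheme

/-!
# The key lemma
-/

set_option autoImplicit false

open Finset Filter Topology

namespace Pool.Agent.Helper17_Tukey

/-- Functions `f, p : D → ℕ` and families `A n` of at most `p n` finite sets. -/
structure Triple where
  /-- the level -/
  f : D → ℕ
  /-- the bound -/
  p : D → ℕ
  /-- the family -/
  A : D → Finset (Finset ℕ)
  card_le : ∀ n, #(A n) ≤ p n

/-- `X` is guessed at `n`. -/
def Triple.Guess (T : Triple) (n : D) (X : Set ℕ) : Prop := tr (T.f n) X ∈ T.A n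

theorem card_div_le {J k : ℕ} (F : Finset ℕ)
    (h : ∀ u ∈ F, ∀ u' ∈ F, u / 2 ^ k = u' / 2 ^ k) (hF : ∀ u ∈ F, u < 2 ^ J) : #F ≤ 2 ^ k := by
  rcases F.eq_empty_or_nonempty with rfl | ⟨u0, hu0⟩
  · simp
  · have h1 : F ⊆ Finset.Ico (u0 / 2 ^ k * 2 ^ k) (u0 / 2 ^ k * 2 ^ k + 2 ^ k) := by
      intro u hu
      have h2 := h u hu u0 hu0
      have h3 := Nat.div_add_mod u (2 ^ k)
      have h4 : u % 2 ^ k < 2 ^ k := Nat.mod_lt _ (by positivity)
      rw [Finset.mem_Ico]
      rw [← h2, mul_comm]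
      omega
    have h5 := Finset.card_le_card h1
    rwa [Nat.card_Ico, Nat.add_sub_cancel_left] at h5

open Classical in
theorem count_guess {A : Type*} {p : ℕ} (v : A → Fin p → Set ℕ) (T : Triple) (n : D) (c : Fin p)
    (l : ℕ) (J j : ℕ) (a : ℕ → A)
    (h : ∀ u < 2 ^ J, ∀ u' < 2 ^ J, tr l (v (a u) c) = tr l (v (a u') c) →
      u / 2 ^ (J - j) = u' / 2 ^ (J - j)) (hl : l ≤ T.f n) :
    #{u ∈ range (2 ^ J) | T.Guess n (v (a u) c)} ≤ 2 ^ (J - j) * T.p n := by
  refine le_trans (Finset.card_le_mul_card_image_of_maps_to (f := fun u => tr (T.f n) (v (a u) c))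
    (t := T.A n) ?_ (2 ^ (J - j)) ?_) ?_
  · intro u hu
    exact (Finset.mem_filter.1 hu).2
  · intro s _
    refine card_div_le (J := J) _ ?_ ?_
    · intro u hu u' hu'
      simp only [Finset.mem_filter, Finset.mem_range] at hu hu'
      exact h u hu.1.1 u' hu'.1.1 (tr_eq_of_le hl (hu.2.trans hu'.2.symm))
    · intro u hu
      simp only [Finset.mem_filter, Finset.mem_range] at hu
      exact hu.1.1
  · exact Nat.mul_le_mul_left _ (T.card_le n)

theorem EE_avg (δ : ℝ) (m : ℕ) (J : ℕ) (φ : ℕ → D → ℝ) :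
    EE δ m (fun n => (∑ u ∈ range (2 ^ J), φ u n) / 2 ^ J) =
      (∑ u ∈ range (2 ^ J), EE δ m (φ u)) / 2 ^ J := by
  unfold EE
  rw [Finset.sum_comm, Finset.sum_div]
  refine Finset.sum_congr rfl fun G _ => ?_
  rw [← Finset.mul_sum]
  ring

theorem key {A : Type*} {p : ℕ} (v : A → Fin p → Set ℕ)
    (hv : ∀ c, Function.Injective fun a => v a c) (hA : ¬ (Set.univ : Set A).Countable)
    (T : Fin p → Triple) (B : Set D) {ε : ℝ} (hε : 0 < ε) (φ : A → D → ℝ)
    (hφ : ∀ a, Good (φ a))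
    (hviol : ∀ a, ∀ n ∈ B, ε ≤ φ a n ∨ ∃ c, (T c).Guess n (v a c)) :
    ∃ ψ, Good ψ ∧ ∃ ε' > 0, ∃ g : ℕ → ℕ, ∀ n ∈ B, ψ n ≤ ε' →
      ∃ c, (T c).f n ≤ g ((T c).p n) := by
  classical
  choose r hr using hφ
  obtain ⟨l, R, a, h1, h2⟩ := scheme v hv hA r
  let avg : ℕ → D → ℝ := fun J n => (∑ u ∈ range (2 ^ J), φ (a J u) n) / 2 ^ J
  have h2J : ∀ J : ℕ, (0 : ℝ) < 2 ^ J := fun J => by positivity
  have havg : ∀ J, avg J ∈ Set.pi Set.univ (fun _ : D => Set.Icc (0 : ℝ) 1) := by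
    intro J n _
    constructor
    · exact div_nonneg (Finset.sum_nonneg fun u _ => ((hr (a J u)).1 n).1) (h2J J).le
    · rw [div_le_one (h2J J)]
      calc ∑ u ∈ range (2 ^ J), φ (a J u) n ≤ ∑ u ∈ range (2 ^ J), (1 : ℝ) :=
            Finset.sum_le_sum fun u _ => ((hr (a J u)).1 n).2
        _ = 2 ^ J := by simp
  have hcomp : IsCompact (Set.pi Set.univ (fun _ : D => Set.Icc (0 : ℝ) 1)) :=
    isCompact_univ_pi fun _ => isCompact_Icc
  obtain ⟨ψ, hψK, hψ⟩ := hcomp.ultrafilter_le_nhds ((Filter.hyperfilter ℕ).map avg) (by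
    rw [Filter.le_principal_iff]
    exact Filter.mem_map.2 (Filter.Eventually.of_forall fun J => havg J))
  have htend : Tendsto avg (Filter.hyperfilter ℕ : Filter ℕ) (𝓝 ψ) := hψ
  have hcoord : ∀ n, Tendsto (fun J => avg J n) (Filter.hyperfilter ℕ : Filter ℕ) (𝓝 (ψ n)) :=
    tendsto_pi_nhds.1 htend
  have hlarge : ∀ k : ℕ, ∀ᶠ J in (Filter.hyperfilter ℕ : Filter ℕ), k ≤ J := by
    intro k
    have : (Filter.hyperfilter ℕ : Filter ℕ) ≤ atTop := by
      rw [← Nat.cofinite_eq_atTop]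
      exact Filter.hyperfilter_le_cofinite
    exact this (Filter.eventually_ge_atTop k)
  refine ⟨ψ, ⟨R, fun n => hψK n (Set.mem_univ n), ?_⟩, ε / 8, by positivity,
    fun m => l (4 * p * m), ?_⟩
  · intro i m him
    have h3 : Tendsto (fun J => EE (dl i) m (avg J)) (Filter.hyperfilter ℕ : Filter ℕ)
        (𝓝 (EE (dl i) m ψ)) := by
      unfold EE
      exact tendsto_finsetSum _ fun G _ => (hcoord (m, G)).const_mul _
    refine le_of_tendsto h3 ?_
    filter_upwards [hlarge (i + 1)] with J hJ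
    rw [EE_avg, div_le_iff₀ (h2J J)]
    calc ∑ u ∈ range (2 ^ J), EE (dl i) m (φ (a J u)) ≤ ∑ u ∈ range (2 ^ J), 2 * dl i :=
          Finset.sum_le_sum fun u hu => (hr (a J u)).2 i m
            (le_trans (h1 J u (Finset.mem_range.1 hu) i (by omega)) him)
      _ = 2 * dl i * 2 ^ J := by simp; ring
  · intro n hn hψn
    by_contra hcon
    push Not at hcon
    have h4 : ∀ᶠ J in (Filter.hyperfilter ℕ : Filter ℕ), avg J n < ε / 4 :=
      (hcoord n).eventually_lt_const (by linarith)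
    obtain ⟨J, hJ1, hJ2⟩ := (h4.and
      (hlarge (Finset.univ.sup fun c : Fin p => 4 * p * (T c).p n))).exists
    have hJc : ∀ c, 4 * p * (T c).p n ≤ J := fun c =>
      le_trans (Finset.le_sup (f := fun c : Fin p => 4 * p * (T c).p n) (Finset.mem_univ c)) hJ2
    -- the three counts
    have hcov : range (2 ^ J) ⊆ {u ∈ range (2 ^ J) | ε ≤ φ (a J u) n} ∪
        Finset.univ.biUnion fun c : Fin p => {u ∈ range (2 ^ J) | (T c).Guess n (v (a J u) c)} := by
      intro u hu
      rw [Finset.mem_union, Finset.mem_biUnion]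
      rcases hviol (a J u) n hn with h5 | ⟨c, h5⟩
      · exact Or.inl (Finset.mem_filter.2 ⟨hu, h5⟩)
      · exact Or.inr ⟨c, Finset.mem_univ c, Finset.mem_filter.2 ⟨hu, h5⟩⟩
    have h6 := (Finset.card_le_card hcov).trans ((Finset.card_union_le _ _).trans
      (Nat.add_le_add_left Finset.card_biUnion_le _))
    rw [Finset.card_range] at h6
    have h6' : (2 : ℝ) ^ J ≤ (#{u ∈ range (2 ^ J) | ε ≤ φ (a J u) n} : ℝ) +
        ∑ c : Fin p, (#{u ∈ range (2 ^ J) | (T c).Guess n (v (a J u) c)} : ℝ) := by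
      exact_mod_cast h6
    have h7 : (#{u ∈ range (2 ^ J) | ε ≤ φ (a J u) n} : ℝ) * ε ≤ ε / 4 * 2 ^ J := by
      have h8 : (#{u ∈ range (2 ^ J) | ε ≤ φ (a J u) n} : ℝ) * ε ≤
          ∑ u ∈ range (2 ^ J), φ (a J u) n := by
        calc (#{u ∈ range (2 ^ J) | ε ≤ φ (a J u) n} : ℝ) * ε
            = ∑ u ∈ range (2 ^ J) with ε ≤ φ (a J u) n, ε := by
              rw [Finset.sum_const, nsmul_eq_mul]
          _ ≤ ∑ u ∈ range (2 ^ J) with ε ≤ φ (a J u) n, φ (a J u) n :=
              Finset.sum_le_sum fun u hu => (Finset.mem_filter.1 hu).2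
          _ ≤ ∑ u ∈ range (2 ^ J), φ (a J u) n :=
              Finset.sum_le_sum_of_subset_of_nonneg (Finset.filter_subset _ _)
                fun u _ _ => ((hr (a J u)).1 n).1
      have h9 : ∑ u ∈ range (2 ^ J), φ (a J u) n = avg J n * 2 ^ J := by
        simp only [avg]
        field_simp
      rw [h9] at h8
      exact h8.trans (mul_le_mul_of_nonneg_right hJ1.le (h2J J).le)
    have h7' : (#{u ∈ range (2 ^ J) | ε ≤ φ (a J u) n} : ℝ) ≤ 2 ^ J / 4 := by
      have h10 : ε / 4 * 2 ^ J = (2 ^ J / 4) * ε := by ring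
      rw [h10] at h7
      exact le_of_mul_le_mul_right h7 hε
    have h11 : ∀ c : Fin p, (#{u ∈ range (2 ^ J) | (T c).Guess n (v (a J u) c)} : ℝ) ≤
        2 ^ J / (4 * p) := by
      intro c
      have hp : 0 < p := by
        have := c.2
        omega
      have h12 := count_guess v (T c) n c (l (4 * p * (T c).p n)) J (4 * p * (T c).p n) (a J)
        (fun u hu u' hu' => h2 J _ (hJc c) u hu u' hu' c) (hcon c).le
      have h13 : (#{u ∈ range (2 ^ J) | (T c).Guess n (v (a J u) c)} : ℝ) ≤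
          2 ^ (J - 4 * p * (T c).p n) * (T c).p n := by exact_mod_cast h12
      refine h13.trans ?_
      have h14 : 4 * p * (T c).p n ≤ 2 ^ (4 * p * (T c).p n) := Nat.lt_two_pow_self.le
      have h14' : (4 * p * (T c).p n : ℝ) ≤ 2 ^ (4 * p * (T c).p n) := by exact_mod_cast h14
      have h15 : (2 : ℝ) ^ J = 2 ^ (J - 4 * p * (T c).p n) * 2 ^ (4 * p * (T c).p n) := by
        rw [← pow_add]
        congr 1
        have := hJc c
        omega
      have hp' : (0 : ℝ) < p := by exact_mod_cast hp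
      rw [le_div_iff₀ (by positivity), h15, mul_assoc]
      refine mul_le_mul_of_nonneg_left ?_ (by positivity)
      linarith
    have h16 : ∑ c : Fin p, (#{u ∈ range (2 ^ J) | (T c).Guess n (v (a J u) c)} : ℝ) ≤
        2 ^ J / 4 := by
      refine (Finset.sum_le_sum fun c _ => h11 c).trans ?_
      rw [Finset.sum_const, Finset.card_univ, Fintype.card_fin, nsmul_eq_mul]
      rcases Nat.eq_zero_or_pos p with hp | hp
      · rw [hp]
        simp only [Nat.cast_zero, zero_mul]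
        positivity
      · have hp' : (0 : ℝ) < p := by exact_mod_cast hp
        rw [← mul_div_assoc, div_le_div_iff₀ (by positivity) (by norm_num)]
        linarith
    linarith [h2J J]

end Pool.Agent.Helper17_Tukey
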