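import Pool.Agent.Helper17_Tukey.Closure

/-!
# The transfinite construction
-/

set_option autoImplicit false

open Finset Filter Topology Cardinal

namespace Pool.Agent.Helper17_Tukey

/-- the set where `T.f` is bounded by `g` of `T.p` -/
def KS (T : Triple) (g : ℕ → ℕ) : Set D := {n | T.f n ≤ g (T.p n)}

/-- the possible outcomes of a stage -/
abbrev Out : Type := (ℕ → ℕ) ⊕ Set (Set ℕ)

open Classical in
/-- the choice made at a stage -/
noncomputable def pick (T : Triple) (ℬ : Set (Set D)) (𝒵 : Set (Triple × Set ℕ))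
    (c : Cardinal.{0}) : Out :=
  if h : ∃ g, (FF (insert (KS T g) ℬ) 𝒵).NeBot then Sum.inl h.choose
  else if h' : ∃ bad : Set (Set ℕ), Cardinal.mk bad ≤ c ∧ (FF ℬ (𝒵 ∪ {z | z.1 = T ∧ z.2 ∉ bad})).NeBot then
    Sum.inr h'.choose
  else Sum.inr Set.univ

/-- the sets added by the stages in `I` -/
def Bof (out : Triple → Out) (I : Set Triple) : Set (Set D) :=
  {B | ∃ S ∈ I, ∃ g, out S = Sum.inl g ∧ B = KS S g}

/-- the pairs added by the stages in `I` -/
def Zof (out : Triple → Out) (I : Set Triple) : Set (Triple × Set ℕ) :=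
  {z | z.1 ∈ I ∧ ∃ bad, out z.1 = Sum.inr bad ∧ z.2 ∉ bad}

theorem Bof_mono {out : Triple → Out} {I J : Set Triple} (h : I ⊆ J) : Bof out I ⊆ Bof out J := by
  rintro B ⟨S, hS, h2⟩
  exact ⟨S, h hS, h2⟩

theorem Zof_mono {out : Triple → Out} {I J : Set Triple} (h : I ⊆ J) : Zof out I ⊆ Zof out J := by
  rintro z ⟨hz, h2⟩
  exact ⟨h hz, h2⟩

theorem Bof_congr {out out' : Triple → Out} {I : Set Triple} (h : ∀ S ∈ I, out S = out' S) :
    Bof out I = Bof out' I := by
  ext B
  constructor
  · rintro ⟨S, hS, g, h1, h2⟩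
    exact ⟨S, hS, g, by rw [← h S hS, h1], h2⟩
  · rintro ⟨S, hS, g, h1, h2⟩
    exact ⟨S, hS, g, by rw [h S hS, h1], h2⟩

theorem Zof_congr {out out' : Triple → Out} {I : Set Triple} (h : ∀ S ∈ I, out S = out' S) :
    Zof out I = Zof out' I := by
  ext z
  constructor
  · rintro ⟨hz, bad, h1, h2⟩
    exact ⟨hz, bad, by rw [← h _ hz, h1], h2⟩
  · rintro ⟨hz, bad, h1, h2⟩
    exact ⟨hz, bad, by rw [h _ hz, h1], h2⟩

theorem dom_of_not {T : Triple} {ℬ : Set (Set D)} {𝒵 : Set (Triple × Set ℕ)}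
    (h : ¬ ∃ g, (FF (insert (KS T g) ℬ) 𝒵).NeBot) : Dom T (FF ℬ 𝒵) := by
  classical
  intro g
  push Not at h
  have h1 := h g
  have h2 : (∅ : Set D) ∈ FF (insert (KS T g) ℬ) 𝒵 := by rw [h1]; exact Filter.mem_bot
  obtain ⟨φ, hφ, ε, hε, b, hb, w, hw, hcon⟩ := mem_FF.1 h2
  refine ⟨φ, hφ, ε, hε, b.filter (fun B => B ≠ KS T g), ?_, w, hw, ?_⟩
  · intro B hB
    rw [List.mem_filter] at hB
    have hne : B ≠ KS T g := by simpa using hB.2
    exact (hb B hB.1).resolve_left hne
  · intro n h3 h4 h5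
    by_contra hlt
    change ¬ (g (T.p n) < T.f n) at hlt
    refine hcon n h3 ?_ h5
    intro B hB
    by_cases hBK : B = KS T g
    · rw [hBK]
      exact not_lt.1 hlt
    · refine h4 B ?_
      rw [List.mem_filter]
      exact ⟨hB, by simpa using hBK⟩

section

variable (r : Triple → Triple → Prop) [wo : IsWellOrder Triple r]

/-- the number of stages before `T`, but at least `ℵ₀` -/
noncomputable def cd (T : Triple) : Cardinal.{0} := max ℵ₀ (Cardinal.mk {S : Triple | r S T})

open Classical in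
/-- the outcomes of the construction -/
noncomputable def out : Triple → Out :=
  wo.toIsWellFounded.wf.fix fun T prev =>
    pick T
      (Bof (fun S => if h : r S T then prev S h else Sum.inr ∅) {S | r S T})
      (Zof (fun S => if h : r S T then prev S h else Sum.inr ∅) {S | r S T}) (cd r T)

theorem out_eq (T : Triple) :
    out r T = pick T (Bof (out r) {S | r S T}) (Zof (out r) {S | r S T}) (cd r T) := by
  classical
  have h1 : out r T = pick T
      (Bof (fun S => if r S T then out r S else Sum.inr ∅) {S | r S T})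
      (Zof (fun S => if r S T then out r S else Sum.inr ∅) {S | r S T}) (cd r T) := by
    unfold out
    rw [WellFounded.fix_eq]
    simp only [dite_eq_ite]
  rw [h1, Bof_congr (out' := out r), Zof_congr (out' := out r)]
  · intro S hS
    exact if_pos hS
  · intro S hS
    exact if_pos hS

/-- the initial segment up to and including `T` -/
def seg (T : Triple) : Set Triple := insert T {S | r S T}

theorem seg_mono {S T : Triple} (h : r S T) : seg r S ⊆ seg r T := by
  rintro R (rfl | hR)
  · exact Or.inr h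
  · exact Or.inr (_root_.trans hR h)

theorem neBot_of_seg (I : Set Triple)
    (h : ∀ T ∈ I, (FF (Bof (out r) (seg r T)) (Zof (out r) (seg r T))).NeBot) :
    (FF (Bof (out r) I) (Zof (out r) I)).NeBot := by
  have hmax : ∀ S S' : Triple, S ∈ I → S' ∈ I → ∃ T ∈ I, seg r S ⊆ seg r T ∧ seg r S' ⊆ seg r T := by
    intro S S' hS hS'
    rcases trichotomous_of r S S' with h1 | rfl | h1
    · exact ⟨S', hS', seg_mono r h1, subset_rfl⟩
    · exact ⟨S, hS, subset_rfl, subset_rfl⟩
    · exact ⟨S, hS, subset_rfl, seg_mono r h1⟩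
  rcases I.eq_empty_or_nonempty with rfl | ⟨T0, hT0⟩
  · have h1 : Bof (out r) ∅ = ∅ := by
      ext B; simp [Bof]
    have h2 : Zof (out r) ∅ = ∅ := by
      ext z; simp [Zof]
    rw [h1, h2]
    exact FF_empty_neBot
  · refine ⟨fun hbot => ?_⟩
    have h2 : (∅ : Set D) ∈ FF (Bof (out r) I) (Zof (out r) I) := by
      rw [hbot]; exact Filter.mem_bot
    obtain ⟨φ, hφ, ε, hε, b, hb, w, hw, hcon⟩ := mem_FF.1 h2
    have hb' : ∃ T ∈ I, ∀ B ∈ b, B ∈ Bof (out r) (seg r T) := by
      clear hcon
      induction b with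
      | nil => exact ⟨T0, hT0, by simp⟩
      | cons B b ih =>
        obtain ⟨T, hT, hT2⟩ := ih fun B' hB' => hb B' (List.mem_cons_of_mem _ hB')
        obtain ⟨S, hS, hS2⟩ := hb B List.mem_cons_self
        obtain ⟨T', hT', h3, h4⟩ := hmax T S hT hS
        refine ⟨T', hT', fun B' hB' => ?_⟩
        rcases List.mem_cons.1 hB' with rfl | hB'
        · exact ⟨S, h4 (Set.mem_insert _ _), hS2⟩
        · exact Bof_mono h3 (hT2 B' hB')
    have hw' : ∃ T ∈ I, ∀ z ∈ w, z ∈ Zof (out r) (seg r T) := by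
      clear hcon
      induction w with
      | nil => exact ⟨T0, hT0, by simp⟩
      | cons z w ih =>
        obtain ⟨T, hT, hT2⟩ := ih fun z' hz' => hw z' (List.mem_cons_of_mem _ hz')
        obtain ⟨hS, hS2⟩ := hw z List.mem_cons_self
        obtain ⟨T', hT', h3, h4⟩ := hmax T z.1 hT hS
        refine ⟨T', hT', fun z' hz' => ?_⟩
        rcases List.mem_cons.1 hz' with rfl | hz'
        · exact ⟨h4 (Set.mem_insert _ _), hS2⟩
        · exact Zof_mono h3 (hT2 z' hz')
    obtain ⟨T, hT, hT2⟩ := hb'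
    obtain ⟨T', hT', hT2'⟩ := hw'
    obtain ⟨T'', hT'', h3, h4⟩ := hmax T T' hT hT'
    refine (h T'' hT'').ne ?_
    rw [← Filter.empty_mem_iff_bot]
    exact ⟨φ, hφ, ε, hε, b, fun B hB => Bof_mono h3 (hT2 B hB), w,
      fun z hz => Zof_mono h4 (hT2' z hz), hcon⟩

theorem mk_Bof_le (I : Set Triple) : Cardinal.mk (Bof (out r) I) ≤ Cardinal.mk I := by
  classical
  have h1 : Bof (out r) I ⊆ Set.range fun S : I =>
      KS S.1 (Sum.elim id (fun _ => fun _ => 0) (out r S.1)) := by
    rintro B ⟨S, hS, g, h1, rfl⟩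
    refine ⟨⟨S, hS⟩, ?_⟩
    simp [h1]
  exact (Cardinal.mk_le_mk_of_subset h1).trans Cardinal.mk_range_le

/-- The filter stays proper, and the choices are as intended. -/
theorem seg_neBot (T : Triple) : (FF (Bof (out r) (seg r T)) (Zof (out r) (seg r T))).NeBot ∧
    ((∃ g, out r T = Sum.inl g) ∨
      ∃ bad, out r T = Sum.inr bad ∧ Cardinal.mk bad ≤ cd r T ∧
        Dom T (FF (Bof (out r) {S | r S T}) (Zof (out r) {S | r S T}))) := by
  induction T using wo.toIsWellFounded.wf.induction with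
  | _ T ih =>
  have hI : (FF (Bof (out r) {S | r S T}) (Zof (out r) {S | r S T})).NeBot :=
    neBot_of_seg r _ fun S hS => (ih S hS).1
  have hout := out_eq r T
  unfold pick at hout
  split_ifs at hout with h1 h2
  · refine ⟨?_, Or.inl ⟨_, hout⟩⟩
    have h3 : Bof (out r) (seg r T) = insert (KS T h1.choose) (Bof (out r) {S | r S T}) := by
      ext B
      constructor
      · rintro ⟨S, hS | hS, g, h4, h5⟩
        · subst hS
          rw [hout] at h4
          rw [h5, ← Sum.inl.inj h4]
          exact Set.mem_insert _ _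
        · exact Set.mem_insert_of_mem _ ⟨S, hS, g, h4, h5⟩
      · rintro (rfl | hB)
        · exact ⟨T, Set.mem_insert _ _, _, hout, rfl⟩
        · exact Bof_mono (Set.subset_insert _ _) hB
    have h4 : Zof (out r) (seg r T) = Zof (out r) {S | r S T} := by
      ext z
      constructor
      · rintro ⟨hz | hz, bad, h5, h6⟩
        · rw [hz, hout] at h5
          exact absurd h5 (by simp)
        · exact ⟨hz, bad, h5, h6⟩
      · exact fun hz => Zof_mono (Set.subset_insert _ _) hz
    rw [h3, h4]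
    exact h1.choose_spec
  · refine ⟨?_, Or.inr ⟨_, hout, h2.choose_spec.1, dom_of_not h1⟩⟩
    have h3 : Bof (out r) (seg r T) = Bof (out r) {S | r S T} := by
      ext B
      constructor
      · rintro ⟨S, hS | hS, g, h4, h5⟩
        · subst hS
          rw [hout] at h4
          exact absurd h4 (by simp)
        · exact ⟨S, hS, g, h4, h5⟩
      · exact fun hB => Bof_mono (Set.subset_insert _ _) hB
    have h4 : Zof (out r) (seg r T) =
        Zof (out r) {S | r S T} ∪ {z | z.1 = T ∧ z.2 ∉ h2.choose} := by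
      ext z
      constructor
      · rintro ⟨hz | hz, bad, h5, h6⟩
        · right
          rw [hz, hout] at h5
          refine ⟨hz, ?_⟩
          rw [Sum.inr.inj h5]
          exact h6
        · exact Or.inl ⟨hz, bad, h5, h6⟩
      · rintro (hz | ⟨hz, hz2⟩)
        · exact Zof_mono (Set.subset_insert _ _) hz
        · exact ⟨by rw [hz]; exact Set.mem_insert _ _, _, by rw [hz]; exact hout, hz2⟩
    rw [h3, h4]
    exact h2.choose_spec.2
  · exfalso
    apply h2
    refine extend hI (c := cd r T) (le_max_left _ _)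
      (act := {S | r S T ∧ ∃ bad, out r S = Sum.inr bad}) ?_ ?_ ?_ ?_ (dom_of_not h1)
    · exact (mk_Bof_le r _).trans (le_max_right _ _)
    · exact (Cardinal.mk_le_mk_of_subset fun S hS => hS.1).trans (le_max_right _ _)
    · rintro z ⟨hz, bad, h3, _⟩
      exact ⟨hz, bad, h3⟩
    · rintro S ⟨hS, bad, hbad⟩ g
      rcases (ih S hS).2 with ⟨g', hg'⟩ | ⟨bad', _, _, h4⟩
      · rw [hg'] at hbad
        exact absurd hbad (by simp)
      · have hsub : {R | r R S} ⊆ {R | r R T} := fun R hR => _root_.trans hR hS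
        exact (FF_mono (Bof_mono hsub) (Zof_mono hsub)) (h4 g)

end

theorem mk_triple : Cardinal.mk Triple ≤ Cardinal.continuum := by
  have h1 : Function.Injective fun T : Triple => (T.f, T.p, T.A) := by
    rintro ⟨f, p, A, h⟩ ⟨f', p', A', h'⟩ he
    simp only [Prod.mk.injEq] at he
    obtain ⟨rfl, rfl, rfl⟩ := he
    rfl
  refine (Cardinal.mk_le_of_injective h1).trans ?_
  have h2 : ∀ β : Type, Countable β → Cardinal.mk (D → β) ≤ Cardinal.continuum := by
    intro β _
    rw [← Cardinal.aleph0_power_aleph0, ← Cardinal.mk_eq_aleph0 D]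
    rw [← Cardinal.power_def]
    exact Cardinal.power_le_power_right (by rw [Cardinal.mk_eq_aleph0 D]; exact Cardinal.mk_le_aleph0)
  exact mk_prod_le Cardinal.aleph0_le_continuum (h2 _ inferInstance)
    (mk_prod_le Cardinal.aleph0_le_continuum (h2 _ inferInstance) (h2 _ inferInstance))

/-- The ultrafilter on `D`. -/
theorem exists_ultrafilter : ∃ U : Ultrafilter D,
    (∀ X : Set ℕ, ∀ᶠ n in (U : Filter D), tr n.1 X ∉ n.2) ∧
    (∀ I : Set (Set ℕ), I.Infinite → ∀ᶠ n in (U : Filter D), ∃ X ∈ I, tr n.1 X ∈ n.2) ∧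
    ∀ T : Triple, (∃ g : ℕ → ℕ, ∀ᶠ n in (U : Filter D), T.f n ≤ g (T.p n)) ∨
      ∃ bad : Set (Set ℕ), Cardinal.mk bad < Cardinal.continuum ∧
        ∀ X ∉ bad, ∀ᶠ n in (U : Filter D), ¬ T.Guess n X := by
  classical
  obtain ⟨r, wo, hr⟩ := Cardinal.exists_ord_eq Triple
  have hne : (FF (Bof (out r) Set.univ) (Zof (out r) Set.univ)).NeBot :=
    neBot_of_seg r _ fun T _ => (seg_neBot r T).1
  have hle : (Ultrafilter.of (FF (Bof (out r) Set.univ) (Zof (out r) Set.univ)) : Filter D) ≤
      FF (Bof (out r) Set.univ) (Zof (out r) Set.univ) := Ultrafilter.of_le _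
  refine ⟨Ultrafilter.of (FF (Bof (out r) Set.univ) (Zof (out r) Set.univ)), ?_, ?_, ?_⟩
  · intro X
    refine hle ?_
    filter_upwards [FF_good (good_point X) (show (0 : ℝ) < 1 / 2 by norm_num)] with n hn h
    rw [if_pos h] at hn
    norm_num at hn
  · intro I hI
    refine hle ?_
    filter_upwards [FF_good (good_inf hI) (show (0 : ℝ) < 1 / 2 by norm_num)] with n hn
    by_contra h
    push Not at h
    rw [if_pos h] at hn
    norm_num at hn
  · intro T
    rcases (seg_neBot r T).2 with ⟨g, hg⟩ | ⟨bad, hbad, hcard, _⟩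
    · left
      refine ⟨g, hle ?_⟩
      exact FF_mem (B := KS T g) ⟨T, Set.mem_univ _, g, hg, rfl⟩
    · right
      refine ⟨bad, lt_of_le_of_lt hcard ?_, fun X hX => hle ?_⟩
      · refine max_lt Cardinal.aleph0_lt_continuum ?_
        refine lt_of_lt_of_le ?_ mk_triple
        have h5 := Cardinal.card_typein_lt T hr
        rwa [Ordinal.card_typein] at h5
      · exact FF_guess (z := (T, X)) ⟨Set.mem_univ _, bad, hbad, hX⟩

end Pool.Agent.Helper17_Tukey
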