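import Pool.Agent.Helper17_Tukey.Defs
import Pool.Agent.Helper17_Tukey.Rec

/-!
# A Tukey-top ultrafilter without diamond-minus
-/

set_option autoImplicit false

open Filter Cardinal

namespace Pool.Agent.Helper17_Tukey

theorem inter_eq_of_tr {X Y : Set ℕ} {m : ℕ} (h : X ∩ Set.Iio m = Y ∩ Set.Iio m) :
    tr m X = tr m Y := by
  ext i
  rw [mem_tr, mem_tr]
  have h1 : i ∈ X ∩ Set.Iio m ↔ i ∈ Y ∩ Set.Iio m := by rw [h]
  simp only [Set.mem_inter_iff, Set.mem_Iio] at h1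
  tauto

theorem DiamondMinus.tukeyTop {U : Ultrafilter ℕ} (h : DiamondMinus U) : TukeyTop U := by
  obtain ⟨f, π, 𝒜, -, h2, h3, h4⟩ := h
  refine ⟨{X : Set ℕ // {n | X ∩ Set.Iio (f n) ∈ 𝒜 n} ∈ U}, h4,
    fun X => {n | X.1 ∩ Set.Iio (f n) ∈ 𝒜 n}, fun X => X.2, ?_⟩
  intro I _ hI hmem
  have key : ∀ m : ℕ, ∃ (F : Finset {X : Set ℕ // {n | X ∩ Set.Iio (f n) ∈ 𝒜 n} ∈ U}) (L : ℕ),
      (F : Set _) ⊆ I ∧ F.card = m + 1 ∧ ∀ X ∈ F, ∀ Y ∈ F, X ≠ Y → tr L X.1 ≠ tr L Y.1 := by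
    intro m
    obtain ⟨F, hF, hc⟩ := hI.exists_subset_card_eq (m + 1)
    have h5 : ∀ X Y : {X : Set ℕ // {n | X ∩ Set.Iio (f n) ∈ 𝒜 n} ∈ U},
        ∃ l, X ≠ Y → tr l X.1 ≠ tr l Y.1 := by
      intro X Y
      by_cases h : X = Y
      · exact ⟨0, fun h' => absurd h h'⟩
      · by_contra hcon
        push Not at hcon
        exact h (Subtype.ext (eq_of_tr fun l => (hcon l).2))
    choose L hL using h5
    refine ⟨F, F.sup fun X => F.sup fun Y => L X Y, hF, hc, fun X hX Y hY hXY he => ?_⟩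
    refine hL X Y hXY (tr_eq_of_le ?_ he)
    exact le_trans (Finset.le_sup (f := fun Y => L X Y) hY)
      (Finset.le_sup (f := fun X => F.sup fun Y => L X Y) hX)
  choose F L hF hc hL using key
  obtain ⟨n, hn1, hn2⟩ := U.neBot.nonempty_of_mem (U.inter_sets hmem (h3 L))
  have h6 : Set.InjOn (fun X : {X : Set ℕ // {n | X ∩ Set.Iio (f n) ∈ 𝒜 n} ∈ U} =>
      X.1 ∩ Set.Iio (f n)) (F (π n)) := by
    intro X hX Y hY he
    by_contra hne
    exact hL (π n) X hX Y hY hne (tr_eq_of_le (le_of_lt hn2) (inter_eq_of_tr he))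
  have h7 : (fun X : {X : Set ℕ // {n | X ∩ Set.Iio (f n) ∈ 𝒜 n} ∈ U} =>
      X.1 ∩ Set.Iio (f n)) '' (F (π n)) ⊆ 𝒜 n := by
    rintro _ ⟨X, hX, rfl⟩
    exact Set.mem_iInter₂.1 hn1 X (hF _ hX)
  have h8 := Set.encard_le_encard h7
  rw [h6.encard_image, Set.encard_coe_eq_coe_finsetCard, hc] at h8
  have h9 := h8.trans (h2 n)
  have h10 : (π n + 1 : ℕ) ≤ π n := by exact_mod_cast h9
  omega

/-- There is a Tukey-top ultrafilter for which diamond-minus fails. -/
theorem exists_tukeyTop_not_diamondMinus :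
    ∃ U : Ultrafilter ℕ, TukeyTop U ∧ ¬ DiamondMinus U := by
  classical
  obtain ⟨U, h1, h2, h3⟩ := exists_ultrafilter
  have hmap : ∀ (s : Set ℕ), s ∈ U.map (Denumerable.eqv D) ↔
      ∀ᶠ n in (U : Filter D), Denumerable.eqv D n ∈ s := fun s => Iff.rfl
  refine ⟨U.map (Denumerable.eqv D), ?_, ?_⟩
  · refine ⟨Set ℕ, Cardinal.mk_set_nat, fun X => {k | tr ((Denumerable.eqv D).symm k).1 X ∉
      ((Denumerable.eqv D).symm k).2}, ?_, ?_⟩
    · intro X
      rw [hmap]
      filter_upwards [h1 X] with n hn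
      simpa using hn
    · intro I _ hI hmem
      rw [hmap] at hmem
      obtain ⟨n, hn1, X, hX, hn2⟩ := (hmem.and (h2 I hI)).exists
      have h4 := Set.mem_iInter₂.1 hn1 X hX
      simp only [Set.mem_ofPred_eq, Equiv.symm_apply_apply] at h4
      exact h4 hn2
  · rintro ⟨f, π, 𝒜, h4, h5, h6, h7⟩
    have hfin : ∀ n, (𝒜 n).Finite := fun n =>
      Set.finite_of_encard_le_coe (h5 n)
    let T : Triple :=
      { f := fun n => f (Denumerable.eqv D n)
        p := fun n => π (Denumerable.eqv D n)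
        A := fun n => (hfin (Denumerable.eqv D n)).toFinset.image
          (fun S => tr (f (Denumerable.eqv D n)) S)
        card_le := by
          intro n
          refine Finset.card_image_le.trans ?_
          have h8 := h5 (Denumerable.eqv D n)
          rw [(hfin (Denumerable.eqv D n)).encard_eq_coe_toFinset_card] at h8
          exact_mod_cast h8 }
    rcases h3 T with ⟨g, hg⟩ | ⟨bad, hbad, hbad2⟩
    · have h8 := h6 g
      rw [hmap] at h8
      obtain ⟨n, hn1, hn2⟩ := (hg.and h8).exists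
      exact absurd hn2 (not_lt.2 hn1)
    · have h8 : {X : Set ℕ | {n | X ∩ Set.Iio (f n) ∈ 𝒜 n} ∈ U.map (Denumerable.eqv D)} ⊆ bad := by
        intro X hX
        by_contra hXb
        have h9 : ∀ᶠ n in (U : Filter D), X ∩ Set.Iio (f (Denumerable.eqv D n)) ∈
            𝒜 (Denumerable.eqv D n) := hX
        obtain ⟨n, hn1, hn2⟩ := (h9.and (hbad2 X hXb)).exists
        apply hn2
        change tr (f (Denumerable.eqv D n)) X ∈ (hfin (Denumerable.eqv D n)).toFinset.image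
          (fun S => tr (f (Denumerable.eqv D n)) S)
        rw [Finset.mem_image]
        refine ⟨X ∩ Set.Iio (f (Denumerable.eqv D n)), (Set.Finite.mem_toFinset _).2 hn1, ?_⟩
        apply inter_eq_of_tr
        rw [Set.inter_assoc, Set.inter_self]
      have h10 := Cardinal.mk_le_mk_of_subset h8
      have h11 : #{X : Set ℕ | {n | X ∩ Set.Iio (f n) ∈ 𝒜 n} ∈ U.map (Denumerable.eqv D)} =
        Cardinal.continuum := h7
      rw [h11] at h10
      exact absurd (lt_of_le_of_lt h10 hbad) (lt_irrefl _)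

end Pool.Agent.Helper17_Tukey
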