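import Pool.Agent.Helper17_Tukey.Good

/-!
# A Cantor scheme of uncountable sets
-/

set_option autoImplicit false

open Finset

namespace Pool.Agent.Helper17_Tukey

theorem uncountable_fiber {A B : Type*} [Countable B] (S : Set A) (hS : ¬ S.Countable)
    (F : A → B) : ∃ b, ¬ {a ∈ S | F a = b}.Countable := by
  by_contra hcon
  push Not at hcon
  apply hS
  refine (Set.countable_iUnion hcon).mono ?_
  intro a ha
  exact Set.mem_iUnion.2 ⟨F a, ha, rfl⟩

theorem two_branches {A : Type*} (w : A → Set ℕ) (hw : Function.Injective w) (S : Set A)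
    (hS : ¬ S.Countable) : ∃ (l : ℕ) (s s' : Finset ℕ), s ≠ s' ∧
      ¬ {a ∈ S | tr l (w a) = s}.Countable ∧ ¬ {a ∈ S | tr l (w a) = s'}.Countable := by
  by_contra hcon
  push Not at hcon
  have h1 : ∀ l, ∃ s, ¬ {a ∈ S | tr l (w a) = s}.Countable :=
    fun l => uncountable_fiber S hS fun a => tr l (w a)
  choose s hs using h1
  have h2 : ∀ l, {a ∈ S | tr l (w a) ≠ s l}.Countable := by
    intro l
    have h3 : ∀ t : Finset ℕ, {a ∈ S | tr l (w a) = t ∧ t ≠ s l}.Countable := by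
      intro t
      by_cases ht : s l = t
      · convert Set.countable_empty
        ext a
        simp only [Set.mem_ofPred_eq, Set.mem_empty_iff_false, iff_false]
        rintro ⟨_, _, h⟩
        exact h ht.symm
      · refine Set.Countable.mono ?_ (hcon l (s l) t ht (hs l))
        intro a ha
        exact ⟨ha.1, ha.2.1⟩
    refine (Set.countable_iUnion h3).mono ?_
    intro a ha
    exact Set.mem_iUnion.2 ⟨tr l (w a), ha.1, rfl, ha.2⟩
  have h4 : (⋃ l, {a ∈ S | tr l (w a) ≠ s l}).Countable := Set.countable_iUnion h2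
  apply hS
  have h5 : (S \ ⋃ l, {a ∈ S | tr l (w a) ≠ s l}).Subsingleton := by
    intro a ha b hb
    apply hw
    apply eq_of_tr
    intro l
    have h6 : ∀ c ∈ S \ ⋃ l, {a ∈ S | tr l (w a) ≠ s l}, tr l (w c) = s l := by
      intro c hc
      by_contra hne
      exact hc.2 (Set.mem_iUnion.2 ⟨l, hc.1, hne⟩)
    rw [h6 a ha, h6 b hb]
  refine (h4.union h5.countable).mono ?_
  intro a ha
  by_cases h : a ∈ ⋃ l, {a ∈ S | tr l (w a) ≠ s l}
  · exact Or.inl h
  · exact Or.inr ⟨ha, h⟩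

theorem split_aux {A : Type*} {p : ℕ} (v : A → Fin p → Set ℕ)
    (hv : ∀ c, Function.Injective fun a => v a c) (S : Set A) (hS : ¬ S.Countable) (k : ℕ) :
    ∃ (l : ℕ) (S0 S1 : Set A), S0 ⊆ S ∧ S1 ⊆ S ∧ ¬ S0.Countable ∧ ¬ S1.Countable ∧
      ∀ a ∈ S0, ∀ a' ∈ S1, ∀ c : Fin p, c.1 < k → tr l (v a c) ≠ tr l (v a' c) := by
  induction k with
  | zero => exact ⟨0, S, S, subset_rfl, subset_rfl, hS, hS, fun _ _ _ _ c hc => by omega⟩
  | succ k ih =>
    obtain ⟨l, S0, S1, h0, h1, hc0, hc1, hsep⟩ := ih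
    by_cases hk : k < p
    · obtain ⟨l', s, s', hss, hs, hs'⟩ := two_branches (fun a => v a ⟨k, hk⟩) (hv _) S0 hc0
      obtain ⟨t, ht⟩ := uncountable_fiber S1 hc1 fun a => tr l' (v a ⟨k, hk⟩)
      have key : ∃ u, u ≠ t ∧ ¬ {a ∈ S0 | tr l' (v a ⟨k, hk⟩) = u}.Countable := by
        by_cases h : s = t
        · exact ⟨s', fun h' => hss (h.trans h'.symm), hs'⟩
        · exact ⟨s, h, hs⟩
      obtain ⟨u, hut, hu⟩ := key
      refine ⟨max l l', {a ∈ S0 | tr l' (v a ⟨k, hk⟩) = u}, {a ∈ S1 | tr l' (v a ⟨k, hk⟩) = t},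
        fun a ha => h0 ha.1, fun a ha => h1 ha.1, hu, ht, ?_⟩
      intro a ha a' ha' c hc he
      by_cases hck : c.1 < k
      · exact hsep a ha.1 a' ha'.1 c hck (tr_eq_of_le (le_max_left _ _) he)
      · have hck' : c = ⟨k, hk⟩ := Fin.ext (by simp; omega)
        subst hck'
        apply hut
        rw [← ha.2, ← ha'.2]
        exact tr_eq_of_le (le_max_right _ _) he
    · refine ⟨l, S0, S1, h0, h1, hc0, hc1, fun a ha a' ha' c hc => hsep a ha a' ha' c ?_⟩
      have := c.2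
      omega

/-- the state of the scheme at level `j` -/
def St {A : Type*} {p : ℕ} (v : A → Fin p → Set ℕ) (j l : ℕ) (S : ℕ → Set A) : Prop :=
  (∀ u < 2 ^ j, ¬ (S u).Countable) ∧
  ∀ u < 2 ^ j, ∀ u' < 2 ^ j, u ≠ u' → ∀ a ∈ S u, ∀ a' ∈ S u', ∀ c, tr l (v a c) ≠ tr l (v a' c)

theorem St.step {A : Type*} {p : ℕ} {v : A → Fin p → Set ℕ}
    (hv : ∀ c, Function.Injective fun a => v a c) (r : A → ℕ → ℕ) {j l : ℕ} {S : ℕ → Set A}
    (h : St v j l S) : ∃ (l' : ℕ) (S' : ℕ → Set A) (R : ℕ), St v (j + 1) l' S' ∧ l ≤ l' ∧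
      (∀ u < 2 ^ (j + 1), S' u ⊆ S (u / 2)) ∧ ∀ u < 2 ^ (j + 1), ∀ a ∈ S' u, r a j ≤ R := by
  obtain ⟨h1, h2⟩ := h
  have key : ∀ u : ℕ, ∃ (l' : ℕ) (S0 S1 : Set A) (R : ℕ), u < 2 ^ j → S0 ⊆ S u ∧ S1 ⊆ S u ∧
      ¬ S0.Countable ∧ ¬ S1.Countable ∧
      (∀ a ∈ S0, ∀ a' ∈ S1, ∀ c : Fin p, tr l' (v a c) ≠ tr l' (v a' c)) ∧
      (∀ a ∈ S0 ∪ S1, r a j = R) := by
    intro u
    by_cases hu : u < 2 ^ j
    · obtain ⟨R, hR⟩ := uncountable_fiber (S u) (h1 u hu) fun a => r a j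
      obtain ⟨l', S0, S1, g0, g1, gc0, gc1, gs⟩ := split_aux v hv _ hR p
      refine ⟨l', S0, S1, R, fun _ => ⟨fun a ha => (g0 ha).1, fun a ha => (g1 ha).1, gc0, gc1,
        fun a ha a' ha' c => gs a ha a' ha' c c.2, ?_⟩⟩
      rintro a (ha | ha)
      · exact (g0 ha).2
      · exact (g1 ha).2
    · exact ⟨0, ∅, ∅, 0, fun h => absurd h hu⟩
  choose L S0 S1 R hk using key
  have hdiv : ∀ u, u < 2 ^ (j + 1) → u / 2 < 2 ^ j := by
    intro u hu
    rw [pow_succ] at hu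
    omega
  have hL : ∀ u < 2 ^ j, L u ≤ (range (2 ^ j)).sup L := fun u hu =>
    Finset.le_sup (f := L) (mem_range.2 hu)
  have hRR : ∀ u < 2 ^ j, R u ≤ (range (2 ^ j)).sup R := fun u hu =>
    Finset.le_sup (f := R) (mem_range.2 hu)
  refine ⟨max l ((range (2 ^ j)).sup L), fun u => if u % 2 = 0 then S0 (u / 2) else S1 (u / 2),
    (range (2 ^ j)).sup R, ⟨?_, ?_⟩, le_max_left _ _, ?_, ?_⟩
  · intro u hu
    have h3 := hk (u / 2) (hdiv u hu)
    dsimp only
    split_ifs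
    · exact h3.2.2.1
    · exact h3.2.2.2.1
  · intro u hu u' hu' hne a ha a' ha' c
    dsimp only at ha ha'
    have h3 := hk (u / 2) (hdiv u hu)
    have h3' := hk (u' / 2) (hdiv u' hu')
    intro he
    by_cases hq : u / 2 = u' / 2
    · have he' : tr (L (u / 2)) (v a c) = tr (L (u / 2)) (v a' c) :=
        tr_eq_of_le (le_trans (hL _ (hdiv u hu)) (le_max_right _ _)) he
      by_cases h4 : u % 2 = 0
      · have h5 : ¬ u' % 2 = 0 := by omega
        rw [if_pos h4] at ha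
        rw [if_neg h5, ← hq] at ha'
        exact h3.2.2.2.2.1 a ha a' ha' c he'
      · have h5 : u' % 2 = 0 := by omega
        rw [if_neg h4] at ha
        rw [if_pos h5, ← hq] at ha'
        exact h3.2.2.2.2.1 a' ha' a ha c he'.symm
    · have ha2 : a ∈ S (u / 2) := by
        split_ifs at ha
        · exact h3.1 ha
        · exact h3.2.1 ha
      have ha2' : a' ∈ S (u' / 2) := by
        split_ifs at ha'
        · exact h3'.1 ha'
        · exact h3'.2.1 ha'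
      exact h2 _ (hdiv u hu) _ (hdiv u' hu') hq a ha2 a' ha2' c (tr_eq_of_le (le_max_left _ _) he)
  · intro u hu
    have h3 := hk (u / 2) (hdiv u hu)
    dsimp only
    split_ifs
    · exact h3.1
    · exact h3.2.1
  · intro u hu a ha
    have h3 := hk (u / 2) (hdiv u hu)
    have h4 : a ∈ S0 (u / 2) ∪ S1 (u / 2) := by
      dsimp only at ha
      split_ifs at ha
      · exact Or.inl ha
      · exact Or.inr ha
    rw [h3.2.2.2.2.2 a h4]
    exact hRR _ (hdiv u hu)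

/-- The scheme: for each `J` there are `2 ^ J` indices `a J u`, `u < 2 ^ J`, whose rates are
bounded by one function and whose traces at level `l j`, `j ≤ J`, determine `u / 2 ^ (J - j)`. -/
theorem scheme {A : Type*} {p : ℕ} (v : A → Fin p → Set ℕ)
    (hv : ∀ c, Function.Injective fun a => v a c) (hA : ¬ (Set.univ : Set A).Countable)
    (r : A → ℕ → ℕ) : ∃ (l : ℕ → ℕ) (R : ℕ → ℕ) (a : ℕ → ℕ → A),
      (∀ J u, u < 2 ^ J → ∀ i < J, r (a J u) i ≤ R i) ∧
      ∀ J j, j ≤ J → ∀ u < 2 ^ J, ∀ u' < 2 ^ J, ∀ c,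
        tr (l j) (v (a J u) c) = tr (l j) (v (a J u') c) → u / 2 ^ (J - j) = u' / 2 ^ (J - j) := by
  classical
  have hne : Nonempty A := by
    by_contra hcon
    rw [not_nonempty_iff] at hcon
    exact hA (Set.countable_univ_iff.2 inferInstance)
  have step : ∀ (j : ℕ) (s : {x : ℕ × (ℕ → Set A) // St v j x.1 x.2}),
      ∃ (s' : {x : ℕ × (ℕ → Set A) // St v (j + 1) x.1 x.2}) (R : ℕ),
        (∀ u < 2 ^ (j + 1), s'.1.2 u ⊆ s.1.2 (u / 2)) ∧
        ∀ u < 2 ^ (j + 1), ∀ a ∈ s'.1.2 u, r a j ≤ R := by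
    rintro j ⟨⟨l, S⟩, h⟩
    obtain ⟨l', S', R, h1, _, h3, h4⟩ := h.step hv r
    exact ⟨⟨⟨l', S'⟩, h1⟩, R, h3, h4⟩
  choose nxt Rf hn1 hn2 using step
  let s : ∀ j : ℕ, {x : ℕ × (ℕ → Set A) // St v j x.1 x.2} := fun j =>
    Nat.rec (motive := fun j => {x : ℕ × (ℕ → Set A) // St v j x.1 x.2})
      ⟨(0, fun _ => Set.univ), ⟨fun _ _ => hA, fun u hu u' hu' hne => by
        simp at hu hu'; omega⟩⟩ (fun j s => nxt j s) j
  have hs : ∀ j, s (j + 1) = nxt j (s j) := fun j => rfl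
  have nest1 : ∀ j, ∀ u < 2 ^ (j + 1), (s (j + 1)).1.2 u ⊆ (s j).1.2 (u / 2) := by
    intro j u hu
    rw [hs]
    exact hn1 j (s j) u hu
  have nest : ∀ k j, ∀ u < 2 ^ (j + k), (s (j + k)).1.2 u ⊆ (s j).1.2 (u / 2 ^ k) := by
    intro k
    induction k with
    | zero => intro j u hu; simp
    | succ k ih =>
      intro j u hu
      have h1 := nest1 (j + k) u (by rw [show j + k + 1 = j + (k + 1) by ring]; exact hu)
      have h2 : u / 2 < 2 ^ (j + k) := by
        rw [show j + (k + 1) = (j + k) + 1 by ring, pow_succ] at hu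
        omega
      have h3 := ih j (u / 2) h2
      rw [Nat.div_div_eq_div_mul, ← pow_succ'] at h3
      exact h1.trans h3
  have hmem : ∀ J u, ∃ a : A, u < 2 ^ J → a ∈ (s J).1.2 u := by
    intro J u
    by_cases hu : u < 2 ^ J
    · have h1 := (s J).2.1 u hu
      have h2 : ((s J).1.2 u).Nonempty := by
        rw [Set.nonempty_iff_ne_empty]
        intro h
        rw [h] at h1
        exact h1 Set.countable_empty
      obtain ⟨a, ha⟩ := h2
      exact ⟨a, fun _ => ha⟩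
    · exact ⟨hne.some, fun h => absurd h hu⟩
  choose a ha using hmem
  refine ⟨fun j => (s j).1.1, fun i => Rf i (s i), a, ?_, ?_⟩
  · intro J u hu i hi
    obtain ⟨k, rfl⟩ : ∃ k, J = (i + 1) + k := ⟨J - (i + 1), by omega⟩
    have h1 := nest k (i + 1) u hu (ha _ u hu)
    have h2 : u / 2 ^ k < 2 ^ (i + 1) := by
      rw [pow_add, mul_comm] at hu
      exact Nat.div_lt_of_lt_mul hu
    rw [hs] at h1
    exact hn2 i (s i) _ h2 _ h1
  · intro J j hj u hu u' hu' c he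
    obtain ⟨k, rfl⟩ : ∃ k, J = j + k := ⟨J - j, by omega⟩
    rw [show j + k - j = k by omega]
    by_contra hne'
    have hlt : ∀ u < 2 ^ (j + k), u / 2 ^ k < 2 ^ j := by
      intro u hu
      rw [pow_add, mul_comm] at hu
      exact Nat.div_lt_of_lt_mul hu
    exact (s j).2.2 _ (hlt u hu) _ (hlt u' hu') hne' _ (nest k j u hu (ha _ u hu)) _
      (nest k j u' hu' (ha _ u' hu')) c he

end Pool.Agent.Helper17_Tukey
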