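import Pool.Agent.Helper17_Tukey.Key

/-!
# The filters of the construction, and the extension step
-/

set_option autoImplicit false

open Finset Filter Topology Cardinal

namespace Pool.Agent.Helper17_Tukey

/-- The filter generated by the sets `{φ ≤ ε}` (`φ` good, `ε > 0`), the sets in `ℬ`, and the sets
`{n | X is not guessed by T at n}` for `(T, X) ∈ 𝒵`. -/
def FF (ℬ : Set (Set D)) (𝒵 : Set (Triple × Set ℕ)) : Filter D where
  sets := {S | ∃ φ, Good φ ∧ ∃ ε : ℝ, 0 < ε ∧ ∃ b : List (Set D), (∀ B ∈ b, B ∈ ℬ) ∧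
    ∃ w : List (Triple × Set ℕ), (∀ z ∈ w, z ∈ 𝒵) ∧
      ∀ n, φ n ≤ ε → (∀ B ∈ b, n ∈ B) → (∀ z ∈ w, ¬ z.1.Guess n z.2) → n ∈ S}
  univ_sets := ⟨_, good_zero, 1, one_pos, [], by simp, [], by simp, fun _ _ _ _ => trivial⟩
  sets_of_superset := by
    rintro S S' ⟨φ, hφ, ε, hε, b, hb, w, hw, h⟩ hS
    exact ⟨φ, hφ, ε, hε, b, hb, w, hw, fun n h1 h2 h3 => hS (h n h1 h2 h3)⟩
  inter_sets := by
    rintro S S' ⟨φ, hφ, ε, hε, b, hb, w, hw, h⟩ ⟨φ', hφ', ε', hε', b', hb', w', hw', h'⟩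
    refine ⟨_, hφ.avg hφ', min ε ε' / 2, by positivity, b ++ b', ?_, w ++ w', ?_, ?_⟩
    · intro B hB
      rcases List.mem_append.1 hB with hB | hB
      · exact hb B hB
      · exact hb' B hB
    · intro z hz
      rcases List.mem_append.1 hz with hz | hz
      · exact hw z hz
      · exact hw' z hz
    · intro n h1 h2 h3
      have a1 := hφ.nonneg n
      have a2 := hφ'.nonneg n
      have a3 := min_le_left ε ε'
      have a4 := min_le_right ε ε'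
      exact ⟨h n (by linarith) (fun B hB => h2 B (List.mem_append_left _ hB))
          fun z hz => h3 z (List.mem_append_left _ hz),
        h' n (by linarith) (fun B hB => h2 B (List.mem_append_right _ hB))
          fun z hz => h3 z (List.mem_append_right _ hz)⟩

theorem mem_FF {ℬ : Set (Set D)} {𝒵 : Set (Triple × Set ℕ)} {S : Set D} :
    S ∈ FF ℬ 𝒵 ↔ ∃ φ, Good φ ∧ ∃ ε : ℝ, 0 < ε ∧ ∃ b : List (Set D), (∀ B ∈ b, B ∈ ℬ) ∧
    ∃ w : List (Triple × Set ℕ), (∀ z ∈ w, z ∈ 𝒵) ∧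
      ∀ n, φ n ≤ ε → (∀ B ∈ b, n ∈ B) → (∀ z ∈ w, ¬ z.1.Guess n z.2) → n ∈ S := Iff.rfl

theorem FF_mono {ℬ ℬ' : Set (Set D)} {𝒵 𝒵' : Set (Triple × Set ℕ)} (h : ℬ ⊆ ℬ') (h' : 𝒵 ⊆ 𝒵') :
    FF ℬ' 𝒵' ≤ FF ℬ 𝒵 := by
  rintro S ⟨φ, hφ, ε, hε, b, hb, w, hw, hS⟩
  exact ⟨φ, hφ, ε, hε, b, fun B hB => h (hb B hB), w, fun z hz => h' (hw z hz), hS⟩

theorem FF_good {ℬ : Set (Set D)} {𝒵 : Set (Triple × Set ℕ)} {φ : D → ℝ} (hφ : Good φ) {ε : ℝ}
    (hε : 0 < ε) : ∀ᶠ n in FF ℬ 𝒵, φ n ≤ ε :=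
  ⟨φ, hφ, ε, hε, [], by simp, [], by simp, fun _ h _ _ => h⟩

theorem FF_mem {ℬ : Set (Set D)} {𝒵 : Set (Triple × Set ℕ)} {B : Set D} (hB : B ∈ ℬ) :
    ∀ᶠ n in FF ℬ 𝒵, n ∈ B :=
  ⟨_, good_zero, 1, one_pos, [B], by simpa using hB, [], by simp, fun n _ h _ => h B (by simp)⟩

theorem FF_guess {ℬ : Set (Set D)} {𝒵 : Set (Triple × Set ℕ)} {z : Triple × Set ℕ}
    (hz : z ∈ 𝒵) : ∀ᶠ n in FF ℬ 𝒵, ¬ z.1.Guess n z.2 :=
  ⟨_, good_zero, 1, one_pos, [], by simp, [z], by simpa using hz, fun n _ _ h => h z (by simp)⟩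

theorem FF_empty_neBot : (FF ∅ ∅).NeBot := by
  refine ⟨fun h => ?_⟩
  have h1 : (∅ : Set D) ∈ FF ∅ ∅ := by rw [h]; exact Filter.mem_bot
  obtain ⟨φ, hφ, ε, hε, b, hb, w, hw, hS⟩ := mem_FF.1 h1
  obtain ⟨n, hn⟩ := hφ.exists_le hε
  exact hS n hn (fun B hB => absurd (hb B hB) (Set.notMem_empty _))
    (fun z hz => absurd (hw z hz) (Set.notMem_empty _))

/-- `T.f` dominates every function of `T.p`, modulo the filter. -/
def Dom (T : Triple) (F : Filter D) : Prop := ∀ g : ℕ → ℕ, ∀ᶠ n in F, g (T.p n) < T.f n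

/-- the finite data of a violation -/
abbrev Key : Type := List (Set D) × List (Triple × Set ℕ) × (Σ p : ℕ, Fin p → Triple) × ℕ

/-- a violating tuple -/
def Viol (κ : Key) (v : Fin κ.2.2.1.1 → Set ℕ) : Prop :=
  ∃ φ, Good φ ∧ ∀ n, (∀ B ∈ κ.1, n ∈ B) → (∀ z ∈ κ.2.1, ¬ z.1.Guess n z.2) →
    φ n ≤ 1 / ((κ.2.2.2 : ℝ) + 1) → ∃ c, (κ.2.2.1.2 c).Guess n (v c)

theorem countable_hit {ℬ : Set (Set D)} {𝒵 : Set (Triple × Set ℕ)} (hne : (FF ℬ 𝒵).NeBot)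
    (κ : Key) (hb : ∀ B ∈ κ.1, B ∈ ℬ) (hw : ∀ z ∈ κ.2.1, z ∈ 𝒵)
    (hL : ∀ c, Dom (κ.2.2.1.2 c) (FF ℬ 𝒵)) :
    ∃ R : Set (Set ℕ), R.Countable ∧ ∀ v, Viol κ v → ∃ c, v c ∈ R := by
  obtain ⟨b, w, ⟨p, T⟩, k⟩ := κ
  simp only at hb hw hL
  -- eventually, the base sets hold
  have hB : ∀ᶠ n in FF ℬ 𝒵, (∀ B ∈ b, n ∈ B) ∧ (∀ z ∈ w, ¬ z.1.Guess n z.2) :=
    ⟨_, good_zero, 1, one_pos, b, hb, w, hw, fun n _ h1 h2 => ⟨h1, h2⟩⟩
  have hk : (0 : ℝ) < 1 / ((k : ℝ) + 1) := by positivity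
  -- a maximal family of violating tuples with pairwise disjoint ranges
  obtain ⟨M, hM⟩ := zorn_subset
    {M : Set (Fin p → Set ℕ) | (∀ v ∈ M, Viol (b, w, ⟨p, T⟩, k) v) ∧
      M.Pairwise fun v v' => Disjoint (Set.range v) (Set.range v')} (by
    intro c hc hchain
    refine ⟨⋃₀ c, ⟨?_, ?_⟩, fun s hs => Set.subset_sUnion_of_mem hs⟩
    · rintro v ⟨s, hs, hv⟩
      exact (hc hs).1 v hv
    · exact (Set.pairwise_sUnion hchain.directedOn).2 fun s hs => (hc hs).2)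
  have hM1 := hM.prop
  have hcount : M.Countable := by
    by_contra hunc
    have hA : ¬ (Set.univ : Set M).Countable := by
      rw [Set.countable_univ_iff]
      exact hunc
    have hviol : ∀ a : M, Viol (b, w, ⟨p, T⟩, k) a.1 := fun a => hM1.1 a.1 a.2
    choose φ hφ hφ2 using hviol
    have hinj : ∀ c : Fin p, Function.Injective fun a : M => a.1 c := by
      intro c a a' he
      by_contra hne'
      have h1 : Disjoint (Set.range a.1) (Set.range a'.1) :=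
        hM1.2 a.2 a'.2 (fun h => hne' (Subtype.ext h))
      rw [Set.disjoint_left] at h1
      exact h1 ⟨c, rfl⟩ ⟨c, he.symm⟩
    obtain ⟨ψ, hψ, ε', hε', g, hg⟩ := key (fun a : M => a.1) hinj hA T
      {n | (∀ B ∈ b, n ∈ B) ∧ (∀ z ∈ w, ¬ z.1.Guess n z.2)} hk φ hφ (by
        rintro a n ⟨h1, h2⟩
        rcases le_total (1 / ((k : ℝ) + 1)) (φ a n) with h3 | h3
        · exact Or.inl h3
        · exact Or.inr (hφ2 a n h1 h2 h3))
    have h1 : ∀ᶠ n in FF ℬ 𝒵, ∀ c, g ((T c).p n) < (T c).f n :=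
      Filter.eventually_all.2 fun c => hL c g
    obtain ⟨n, h2, h3, h4⟩ := (h1.and (hB.and (FF_good hψ hε'))).exists
    obtain ⟨c, h5⟩ := hg n h3 h4
    exact absurd (h2 c) (not_lt.2 h5)
  refine ⟨⋃ v ∈ M, Set.range v, hcount.biUnion fun v _ => Set.countable_range v, ?_⟩
  intro v hv
  by_contra hcon
  push Not at hcon
  simp only at v hcon
  have h1 : ∀ v' ∈ M, Disjoint (Set.range v) (Set.range v') := by
    intro v' hv'
    rw [Set.disjoint_left]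
    rintro _ ⟨c, rfl⟩ h2
    exact hcon c (Set.mem_biUnion hv' h2)
  have h2 : insert v M ∈ {M : Set (Fin p → Set ℕ) | (∀ v ∈ M, Viol (b, w, ⟨p, T⟩, k) v) ∧
      M.Pairwise fun v v' => Disjoint (Set.range v) (Set.range v')} := by
    refine ⟨?_, ?_⟩
    · rintro v' (rfl | hv')
      · exact hv
      · exact hM1.1 v' hv'
    · rw [Set.pairwise_insert]
      exact ⟨hM1.2, fun v' hv' _ => ⟨h1 v' hv', (h1 v' hv').symm⟩⟩
  have h3 : v ∈ M := hM.le_of_ge h2 (Set.subset_insert v M) (Set.mem_insert v M)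
  have h4 := h1 v h3
  rcases Nat.eq_zero_or_pos p with hp | hp
  · -- no coordinates: contradiction with properness
    subst hp
    obtain ⟨φ, hφ, hφ2⟩ := hv
    obtain ⟨n, h5, h6⟩ := (hB.and (FF_good hφ hk)).exists
    obtain ⟨c, _⟩ := hφ2 n h5.1 h5.2 h6
    exact c.elim0
  · rw [Set.disjoint_left] at h4
    exact h4 ⟨⟨0, hp⟩, rfl⟩ ⟨⟨0, hp⟩, rfl⟩

end Pool.Agent.Helper17_Tukey
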